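import Pool.Agent.Helper58.R3.Stmts

/-! r3_mods TZ: the layer of the third element. -/

set_option autoImplicit false
open Classical

namespace Pool.Agent.Helper58.R3

theorem tz_nb {m : ℕ} {H : SimpleGraph (Fin m)} {F : Finset (Fin m)} {x : Fin m} :
    x ∈ nb H F ↔ x ∉ F ∧ ∃ y ∈ F, H.Adj y x := by
  simp only [nb, Finset.mem_filter, Finset.mem_univ, true_and]

theorem st_TZ (hF : ST_LYF) (hA : ST_LA) (hR : ST_R2) : ST_TZ := by
  intro m H v0 Z ψ k c c' d B t ht
  obtain ⟨_, L2, _, L4, _, L6, _, L8, _, _, _⟩ := hF m H v0 Z ψ k B.s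
  have hk1 : 1 ≤ k := B.s.k1
  have hd : d ∈ nb H Z := (B.D d).mpr (Or.inr (Or.inr rfl))
  have hdZ : d ∉ Z := (tz_nb.mp hd).1
  have ht1 : 1 ≤ t := by
    rcases Nat.eq_zero_or_pos t with h | h
    · subst h
      exact absurd ht.1 hdZ
    · exact h
  have hv0 : Lay Z ψ k v0 := B.s.kl
  have hvk : Lay Z ψ 0 (ψ^[k] v0) := by
    have := L6 k le_rfl
    rwa [Nat.sub_self] at this
  -- the claim
  have htk : t ≤ k := by
    by_contra hlt
    push Not at hlt
    set F : Finset (Fin m) := Finset.univ.filter (fun x => Lay Z ψ k x ∧ x ≠ v0) with hFdef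
    have hmF : ∀ x, x ∈ F ↔ Lay Z ψ k x ∧ x ≠ v0 := by
      intro x
      rw [hFdef, Finset.mem_filter]
      exact ⟨fun h => h.2, fun h => ⟨Finset.mem_univ _, h⟩⟩
    have hnb : ∀ y ∈ nb H F, y = v0 ∨ (ψ^[k] y = d ∧ Lay Z ψ (k + t) y) := by
      intro y hy
      rw [tz_nb] at hy
      obtain ⟨hyF, x, hx, hadj⟩ := hy
      rw [hmF] at hyF hx
      by_cases hyv : y = v0
      · exact Or.inl hyv
      · right
        have hL := (hF m H v0 Z ψ k B.s).1 y
        rcases hL with ⟨j, hj⟩ | hp
        · rcases lt_trichotomy j k with h | h | h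
          · rcases hA m H v0 Z ψ k c c' d B y x j k t hj hx.1 h hadj.symm ht with h1 | h1
            · exfalso
              have := h1.2.1
              rw [Nat.sub_self] at this
              exact hx.2 this
            · omega
          · subst h
            exact absurd ⟨hj, hyv⟩ hyF
          · rcases hA m H v0 Z ψ k c c' d B x y k j t hx.1 hj h hadj ht with h1 | h1
            · omega
            · refine ⟨h1.2, ?_⟩
              have : k + t = j := by omega
              rw [this]
              exact hj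
        · exact absurd hp (B.np y)
    have huniq : ∀ y y', (ψ^[k] y = d ∧ Lay Z ψ (k + t) y) →
        (ψ^[k] y' = d ∧ Lay Z ψ (k + t) y') → y = y' := by
      intro y y' hy hy'
      refine L8 y y' k (fun s hs => hy.2.2 s (by omega)) (fun s hs => hy'.2.2 s (by omega)) ?_
      rw [hy.1, hy'.1]
    have hcard : (nb H F).card ≤ 2 := by
      by_contra hc
      push Not at hc
      rw [Finset.two_lt_card] at hc
      obtain ⟨x, hx, y, hy, z, hz, hxy, hxz, hyz⟩ := hc
      rcases hnb x hx with h1 | h1 <;> rcases hnb y hy with h2 | h2 <;>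
        rcases hnb z hz with h3 | h3
      · exact hxy (h1.trans h2.symm)
      · exact hxy (h1.trans h2.symm)
      · exact hxz (h1.trans h3.symm)
      · exact hyz (huniq y z h2 h3)
      · exact hyz (h2.trans h3.symm)
      · exact hxz (huniq x z h1 h3)
      · exact hxy (huniq x y h1 h2)
      · exact hxy (huniq x y h1 h2)
    have hFe : ¬ F.Nonempty := by
      intro hne
      rcases B.s.k3 F hne hcard (ψ^[k] v0) with h | h
      · rw [hmF] at h
        have := L2 _ _ _ hvk h.1
        omega
      · rcases hnb _ h with h1 | h1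
        · rw [h1] at hvk
          have := L2 _ _ _ hvk hv0
          omega
        · have := L2 _ _ _ hvk h1.2
          omega
    have hone : ∀ x, Lay Z ψ k x → x = v0 := by
      intro x hx
      by_contra hxv
      exact hFe ⟨x, (hmF x).mpr ⟨hx, hxv⟩⟩
    have hno : ∀ x, ¬ Lay Z ψ (k + 1) x := by
      intro x hx
      have h1 : Lay Z ψ (1 + k) x := by
        rw [Nat.add_comm]; exact hx
      have h2 := L4 x 1 k h1
      have h3 := hone _ h2
      have h4 : x ∉ Z := hx.2 0 (by omega)
      exact B.s.we.nv x h4 h3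
    have h5 : Lay Z ψ ((t - (k + 1)) + (k + 1)) d := by
      have : t - (k + 1) + (k + 1) = t := by omega
      rw [this]
      exact ht
    exact hno _ (L4 d (t - (k + 1)) (k + 1) h5)
  have hmod : t % (k + 1) = t := Nat.mod_eq_of_lt (by omega)
  have hr := hR m H v0 Z ψ k B.s d hd t ht (by rw [hmod]; omega)
  rw [hmod] at hr
  have hcc := B.cc
  have hc1 := B.c1
  have hc1' := B.c1'
  have hLt := L6 (k - t) (by omega)
  rcases (B.D _).mp hr.2.1 with h | h | h
  · left
    have h1 := L6 (k - c) (by omega)
    rw [← h] at h1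
    have := L2 _ _ _ hLt h1
    omega
  · right
    have h1 := L6 (k - c') (by omega)
    rw [← h] at h1
    have := L2 _ _ _ hLt h1
    omega
  · exact absurd h.symm (B.dO _ (by omega))

end Pool.Agent.Helper58.R3
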